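import Mathlib
import Pool.Agent.N251.IM.Box
import Pool.Agent.W472.AC.RothThm

/-!
# Lang's inequality for almost all integer multiples of an algebraic number
-/

set_option autoImplicit false

namespace Pool.Agent.Results.MP_c307ca_nt.IntegerMultiples

open Finset Filter

/-- The inequality of Lang's conjecture for the number `α`, with the constant `c`, for all
denominators `2 ≤ q ≤ Q`. -/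
def LangUpTo (Q c ε α : ℝ) : Prop := ∀ (p : ℤ) (q : ℕ), 2 ≤ q → (q : ℝ) ≤ Q →
  c / ((q : ℝ) ^ 2 * Real.log q ^ (1 + ε)) < |α - (p : ℝ) / q|

theorem ncard_nat (N : ℕ) (P : ℕ → Prop) (B : ℝ)
    (h : ∀ A : Finset ℕ, (∀ n ∈ A, 1 ≤ n ∧ n ≤ N ∧ P n) → (A.card : ℝ) ≤ B) :
    ({n : ℕ | 1 ≤ n ∧ n ≤ N ∧ P n}.ncard : ℝ) ≤ B := by
  have hfin : {n : ℕ | 1 ≤ n ∧ n ≤ N ∧ P n}.Finite :=
    (Set.finite_Icc 1 N).subset (fun n hn => ⟨hn.1, hn.2.1⟩)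
  rw [Set.ncard_eq_toFinset_card _ hfin]
  refine h _ (fun n hn => ?_)
  rw [Set.Finite.mem_toFinset] at hn
  exact hn

/-- **Lang's inequality for almost all integer multiples of an algebraic number.** -/
theorem result :
    (∀ ξ : ℝ, IsAlgebraic ℚ ξ → Irrational ξ → ∀ κ κ' : ℝ, κ < 1 → κ < κ' →
      ∃ N0 : ℕ, ∀ N : ℕ, N0 ≤ N → ∀ (ρ : ℝ) (ψ : ℕ → ℝ), (∀ q, 0 ≤ ψ q) →
        ({n : ℕ | 1 ≤ n ∧ n ≤ N ∧ ∃ (p : ℤ) (q : ℕ), 1 ≤ q ∧ (q : ℝ) ≤ (N : ℝ) ^ κ ∧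
          |n * ξ + ρ - (p : ℝ) / q| ≤ ψ q / q}.ncard : ℝ) ≤
          12 * N * (∑ q ∈ Icc 1 ⌊(N : ℝ) ^ κ⌋₊, ψ q) + (N : ℝ) ^ κ') ∧
    (∀ ε η : ℝ, 0 < ε → 0 < η → ∃ c : ℝ, 0 < c ∧ ∀ ξ : ℝ, IsAlgebraic ℚ ξ → Irrational ξ →
      ∀ κ : ℝ, κ < 1 → ∃ N0 : ℕ, ∀ N : ℕ, N0 ≤ N → ∀ ρ : ℝ,
        ({n : ℕ | 1 ≤ n ∧ n ≤ N ∧ ¬ LangUpTo ((N : ℝ) ^ κ) c ε (n * ξ + ρ)}.ncard : ℝ) ≤
          η * N) ∧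
    (∀ ξ : ℝ, IsAlgebraic ℚ ξ → Irrational ξ → ∀ κ : ℝ, 0 ≤ κ → κ < 1 →
      ∀ ψ : ℕ → ℝ, (∀ q, 0 ≤ ψ q) → Summable ψ → ∀ g : ℕ → ℝ, Tendsto g atTop atTop →
      ∀ η : ℝ, 0 < η → ∃ N0 : ℕ, ∀ N : ℕ, N0 ≤ N → ∀ ρ : ℝ,
        ({n : ℕ | 1 ≤ n ∧ n ≤ N ∧ ∃ (p : ℤ) (q : ℕ), 1 ≤ q ∧ g n ≤ q ∧
          (q : ℝ) ≤ (n : ℝ) ^ κ ∧ |n * ξ + ρ - (p : ℝ) / q| ≤ ψ q / q}.ncard : ℝ) ≤ η * N) ∧
    (∀ k : ℕ, ∀ ε η : ℝ, 0 < ε → 0 < η → ∃ c : ℝ, 0 < c ∧ ∀ e : Fin k → ℝ,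
      (∃ i, IsAlgebraic ℚ (e i) ∧ Irrational (e i)) → ∀ κ : ℝ, 0 ≤ κ → κ < 1 →
      ∃ H0 : ℕ, ∀ H : ℕ, H0 ≤ H → ∀ σ : ℝ,
        {a : Fin k → ℤ | (∀ i, |a i| ≤ (H : ℤ)) ∧
          ¬ LangUpTo ((H : ℝ) ^ κ) c ε (∑ i, (a i : ℝ) * e i + σ)}.Finite ∧
        ({a : Fin k → ℤ | (∀ i, |a i| ≤ (H : ℤ)) ∧
          ¬ LangUpTo ((H : ℝ) ^ κ) c ε (∑ i, (a i : ℝ) * e i + σ)}.ncard : ℝ) ≤
            η * (H : ℝ) ^ k) := by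
  have hroth : ∀ ξ : ℝ, IsAlgebraic ℚ ξ → Irrational ξ → N251.IM.Roth ξ :=
    fun ξ halg hirr τ hτ => W472.AC.roth ξ halg hirr τ hτ
  refine ⟨fun ξ halg hirr κ κ' hκ hκ' => ?_, fun ε η hε hη => ?_,
    fun ξ halg hirr κ hκ0 hκ ψ hψ hs g hg η hη => ?_, fun k ε η hε hη => ?_⟩
  · obtain ⟨N0, h⟩ := N251.IM.count ξ (hroth ξ halg hirr) κ κ' hκ hκ'
    exact ⟨N0, fun N hN ρ ψ hψ => ncard_nat N _ _ (h N hN ρ ψ hψ)⟩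
  · obtain ⟨c, hc, h⟩ := N251.IM.lang_count ε η hε hη
    refine ⟨c, hc, fun ξ halg hirr κ hκ => ?_⟩
    obtain ⟨N0, h1⟩ := h ξ (hroth ξ halg hirr) κ hκ
    exact ⟨N0, fun N hN ρ => ncard_nat N _ _ (h1 N hN ρ)⟩
  · obtain ⟨N0, h⟩ := N251.IM.density ξ (hroth ξ halg hirr) κ hκ0 hκ ψ hψ hs g hg η hη
    exact ⟨N0, fun N hN ρ => ncard_nat N _ _ (h N hN ρ)⟩
  · obtain ⟨c, hc, h⟩ := N251.IM.box k ε η hε hη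
    refine ⟨c, hc, fun e ⟨i0, halg, hirr⟩ κ hκ0 hκ => ?_⟩
    obtain ⟨H0, h1⟩ := h e i0 (hroth _ halg hirr) κ hκ0 hκ
    refine ⟨H0, fun H hH σ => ?_⟩
    have hfin : {a : Fin k → ℤ | (∀ i, |a i| ≤ (H : ℤ)) ∧
        ¬ LangUpTo ((H : ℝ) ^ κ) c ε (∑ i, (a i : ℝ) * e i + σ)}.Finite := by
      refine (Set.finite_Icc (fun _ : Fin k => -(H : ℤ)) (fun _ => (H : ℤ))).subset ?_
      intro a ha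
      exact ⟨fun i => (abs_le.1 (ha.1 i)).1, fun i => (abs_le.1 (ha.1 i)).2⟩
    refine ⟨hfin, ?_⟩
    rw [Set.ncard_eq_toFinset_card _ hfin]
    refine h1 H hH σ _ (fun a ha => ?_)
    rw [Set.Finite.mem_toFinset] at ha
    exact ha

end Pool.Agent.Results.MP_c307ca_nt.IntegerMultiples
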