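import Pool.Agent.N965.LN.Asm3
import Pool.Agent.N965.LN.Log
import Pool.Agent.N965.LN.Cnt
import Pool.Agent.N965.LN.Err
import Pool.Agent.N965.LN.Fej
import Pool.Agent.N965.LN.Ftl
import Pool.Agent.N965.LN.Ks
import Pool.Agent.N965.LN.Low
import Pool.Agent.N965.LN.Ps
import Pool.Agent.N965.LN.Psi
import Pool.Agent.N965.LN.Res
import Pool.Agent.N965.LN.Sch

set_option autoImplicit false

/-!
# Lang's inequality for almost all elements of every real number field

Let `K` be a real number field of degree `m + 1 ≥ 2` with a `ℚ`-basis `e 0 = 1, e 1, …, e m`. The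
elements `(a₀ + a₁ e₁ + ⋯ + a_m e_m) / b` with integers `|a_i| ≤ H` and `1 ≤ b ≤ H` exhaust `K` when
`H → ∞`, and at least `H ^ (m + 2) / 4` of them are irrational. For every `κ < m + 1`, every
nonincreasing summable `ψ ≥ 0` and every `η > 0` there is `c > 0` such that for every `H ≥ 1` all
but at most `η H ^ (m + 2)` of them satisfy `|α - p / q| > c ψ(q) / q` for all integers `p` and all
`1 ≤ q ≤ H ^ κ`; in particular they satisfy Lang's inequality `|α - p / q| > c / (q² (log q)^(1+ε))`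
for `2 ≤ q ≤ H ^ κ`.

Method: for given `q` and `b` the numerators are counted with the Fejér majorant, which leads to sums
of products of Fejér kernels at the multiples of `(e₁, …, e_m)`; these are estimated by Schmidt's
theorem on simultaneous approximation, which is deduced from the subspace theorem of the library.

Authors: helper965 with helper803 (Schmidt's theorem), helper27, helper693, helper143, helper40,
helper907, helper380, helper402, helper136 and helper441.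
-/

namespace Pool.Agent.Results.MP_c307ca_nt.NumberFields

open Pool.Agent.N965

/-- The elements `(a₀ e₀ + ⋯ + a_m e_m) / b` with integers `|a_i| ≤ H` and `1 ≤ b ≤ H`. -/
def Elements {m : ℕ} {K : IntermediateField ℚ ℝ} (e : Module.Basis (Fin (m + 1)) ℚ K) (H : ℕ) :
    Set ℝ :=
  {α | ∃ (a : Fin (m + 1) → ℤ) (b : ℕ), (∀ i, |a i| ≤ (H : ℤ)) ∧ 1 ≤ b ∧ b ≤ H ∧
    α = (∑ i, (a i : ℝ) * (e i : ℝ)) / b}

/-- `|α - p / q| > c ψ(q) / q` for all integers `p` and all `1 ≤ q ≤ N`. -/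
def KhintchineUpTo (N c : ℝ) (ψ : ℕ → ℝ) (α : ℝ) : Prop :=
  ∀ (p : ℤ) (q : ℕ), 1 ≤ q → (q : ℝ) ≤ N → c * ψ q / q < |α - (p : ℝ) / q|

/-- Lang's inequality for the number `α` with the constant `c`, for the denominators up to `N`. -/
def LangUpTo (N c ε α : ℝ) : Prop :=
  ∀ (p : ℤ) (q : ℕ), 2 ≤ q → (q : ℝ) ≤ N →
    c / ((q : ℝ) ^ 2 * Real.log q ^ (1 + ε)) < |α - (p : ℝ) / q|

section

variable {m : ℕ} {K : IntermediateField ℚ ℝ} (e : Module.Basis (Fin (m + 1)) ℚ K)

theorem linind : LinearIndependent ℚ (fun i => ((e i : K) : ℝ)) := by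
  have h1 := e.linearIndependent.map' K.val.toLinearMap (by
    rw [LinearMap.ker_eq_bot]
    exact K.val.injective)
  exact h1

theorem alg (i : Fin (m + 1)) : IsAlgebraic ℚ ((e i : K) : ℝ) := by
  have : Module.Finite ℚ K := Module.Finite.of_basis e
  have h1 : IsAlgebraic ℚ (e i) := IsAlgebraic.of_finite ℚ (e i)
  exact h1.algebraMap

theorem indep (he : e 0 = 1) : LN.Indep (fun i : Fin m => ((e i.succ : K) : ℝ)) := by
  intro a a₀ h
  have h1 := Fintype.linearIndependent_iff.1 (linind e)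
    (Fin.cons (a₀ : ℚ) fun i => (a i : ℚ)) (by
      rw [Fin.sum_univ_succ]
      simp only [Fin.cons_zero, Fin.cons_succ, he]
      have h2 : ∀ (x : ℚ) (y : ℝ), x • y = (x : ℝ) * y := fun x y => Rat.smul_def x y
      simp only [h2]
      push_cast
      simpa using h)
  funext i
  have h2 := h1 i.succ
  rw [Fin.cons_succ] at h2
  exact_mod_cast h2

theorem ft (hm : 1 ≤ m) (he : e 0 = 1) : LN.FT (fun i : Fin m => ((e i.succ : K) : ℝ)) :=
  LN.t_FTL m _ (LN.t_KS m _ (LN.t_CNT m _ (LN.t_SCH m _ hm (fun i => alg e i.succ) (indep e he))))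

theorem num_eq (he : e 0 = 1) (a : Fin (m + 1) → ℤ) (b : ℕ) :
    (∑ i, (a i : ℝ) * (e i : ℝ)) / b =
      LN.num (fun i : Fin m => ((e i.succ : K) : ℝ)) b (a 0) (fun i => a i.succ) := by
  unfold LN.num
  rw [Fin.sum_univ_succ, he]
  simp

theorem count (hm : 1 ≤ m) (he : e 0 = 1) (κ : ℝ) (hκ : κ < m + 1) (ψ : ℕ → ℝ)
    (hψ0 : ∀ q, 0 ≤ ψ q) (hψ : Antitone ψ) (hs : Summable ψ) (η : ℝ) (hη : 0 < η) :
    ∃ c : ℝ, 0 < c ∧ ∀ H : ℕ, 1 ≤ H →
      {α | α ∈ Elements e H ∧ Irrational α ∧ ¬ KhintchineUpTo ((H : ℝ) ^ κ) c ψ α}.Finite ∧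
      ({α | α ∈ Elements e H ∧ Irrational α ∧
        ¬ KhintchineUpTo ((H : ℝ) ^ κ) c ψ α}.ncard : ℝ) ≤ η * (H : ℝ) ^ (m + 2) := by
  obtain ⟨c, hc, h⟩ := LN.main LN.t_RES LN.t_FEJ LN.t_INJ LN.t_PSI (LN.t_ERR LN.t_PS LN.t_PSI)
    LN.t_SMALL _ (indep e he) (ft e hm he) κ hκ ψ hψ0 hψ hs η hη
  refine ⟨c, hc, fun H hH => ?_⟩
  obtain ⟨h1, h2⟩ := h H hH
  set ξ : Fin m → ℝ := fun i => ((e i.succ : K) : ℝ) with hξ
  have hsub : {α | α ∈ Elements e H ∧ Irrational α ∧ ¬ KhintchineUpTo ((H : ℝ) ^ κ) c ψ α} ⊆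
      (fun x : ℕ × (ℤ × (Fin m → ℤ)) => LN.num ξ x.1 x.2.1 x.2.2) ''
        LN.Bad ξ ψ H ((H : ℝ) ^ κ) c := by
    rintro α ⟨⟨a, b, h3, h4, h5, h6⟩, h7, h8⟩
    rw [num_eq e he] at h6
    refine ⟨(b, (a 0, fun i => a i.succ)), ⟨h4, h5, ?_, ?_, ?_, ?_⟩, h6.symm⟩
    · rw [Finset.mem_Icc]
      exact abs_le.1 (h3 0)
    · unfold LN.box
      rw [Fintype.mem_piFinset]
      intro i
      rw [Finset.mem_Icc]
      exact abs_le.1 (h3 i.succ)
    · intro h9
      apply h7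
      simp only at h9
      rw [h6, h9]
      unfold LN.num
      refine ⟨((a 0 : ℤ) : ℚ) / (b : ℚ), ?_⟩
      simp
    · unfold KhintchineUpTo at h8
      push Not at h8
      obtain ⟨p, q, h9, h10, h11⟩ := h8
      refine ⟨p, q, h9, h10, ?_⟩
      rw [← h6]
      exact h11
  have hfin := h1.image (fun x : ℕ × (ℤ × (Fin m → ℤ)) => LN.num ξ x.1 x.2.1 x.2.2)
  refine ⟨hfin.subset hsub, ?_⟩
  have h3 := (Set.ncard_le_ncard hsub hfin).trans (Set.ncard_image_le h1)
  have h4 : ({α | α ∈ Elements e H ∧ Irrational α ∧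
        ¬ KhintchineUpTo ((H : ℝ) ^ κ) c ψ α}.ncard : ℝ) ≤
      ((LN.Bad ξ ψ H ((H : ℝ) ^ κ) c).ncard : ℝ) := by exact_mod_cast h3
  exact h4.trans h2

theorem union_eq : (⋃ H, Elements e H) = (K : Set ℝ) := by
  classical
  ext α
  rw [Set.mem_iUnion]
  constructor
  · rintro ⟨H, a, b, -, -, -, rfl⟩
    refine div_mem (sum_mem fun i _ => mul_mem ?_ (e i).2) ?_
    · exact intCast_mem K (a i)
    · exact natCast_mem K b
  · intro hα
    set x : K := ⟨α, hα⟩ with hx
    set r : Fin (m + 1) → ℚ := fun i => e.repr x i with hr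
    set b : ℕ := ∏ i, (r i).den with hb
    have hb0 : 1 ≤ b := Finset.one_le_prod' fun i _ => (r i).pos
    set a : Fin (m + 1) → ℤ := fun i => (r i).num * ((∏ j ∈ Finset.univ.erase i, (r j).den : ℕ) : ℤ)
      with ha
    have h1 : ∀ i, (r i : ℝ) * b = a i := by
      intro i
      have h2 : b = (r i).den * ∏ j ∈ Finset.univ.erase i, (r j).den :=
        (Finset.mul_prod_erase _ _ (Finset.mem_univ i)).symm
      have h3 : (r i : ℝ) * ((r i).den : ℝ) = ((r i).num : ℝ) := by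
        exact_mod_cast Rat.mul_den_eq_num (r i)
      rw [h2]
      simp only [ha]
      push_cast
      rw [← mul_assoc, h3]
    have h2 : α = ∑ i, (r i : ℝ) * (e i : ℝ) := by
      have h3 := congrArg (fun y : K => (y : ℝ)) (e.sum_repr x)
      simp only [hx] at h3
      rw [← h3]
      push_cast
      refine Finset.sum_congr rfl fun i _ => ?_
      exact Rat.smul_def _ _
    refine ⟨b + ∑ i, (a i).natAbs, a, b, fun i => ?_, hb0, Nat.le_add_right _ _, ?_⟩
    · have h3 : (a i).natAbs ≤ ∑ i, (a i).natAbs :=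
        Finset.single_le_sum (f := fun i => (a i).natAbs) (fun _ _ => Nat.zero_le _)
          (Finset.mem_univ i)
      rw [Int.abs_eq_natAbs]
      have : (a i).natAbs ≤ b + ∑ i, (a i).natAbs := by omega
      exact_mod_cast this
    · have hb' : (b : ℝ) ≠ 0 := by
        have : (0 : ℝ) < b := by exact_mod_cast hb0
        exact this.ne'
      rw [h2, eq_div_iff hb', Finset.sum_mul]
      refine Finset.sum_congr rfl fun i _ => ?_
      rw [← h1 i]
      ring

end

/-- **Lang's inequality for almost all elements of every real number field.** Let `K ⊂ ℝ` be a number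
field of degree `m + 1 ≥ 2`, with a basis `e` over `ℚ` such that `e 0 = 1`.

(1) For every `H ≥ 1` there are only finitely many elements `(a₀ e₀ + ⋯ + a_m e_m) / b` of `K` with
integers `|a_i| ≤ H` and `1 ≤ b ≤ H`, and at least `H ^ (m + 2) / 4` of them are irrational.

(2) Every element of `K` is of this form for some `H`.

(3) For every `κ < m + 1`, every nonnegative nonincreasing summable `ψ` and every `η > 0` there is
`c > 0` such that for every `H ≥ 1` all but at most `η H ^ (m + 2)` of the irrational elements in (1)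
satisfy `|α - p / q| > c ψ(q) / q` for all integers `p` and all `1 ≤ q ≤ H ^ κ`.

(4) For every `κ < m + 1` and all `ε, η > 0` there is `c > 0` such that for every `H ≥ 1` all but at
most `η H ^ (m + 2)` of the irrational elements in (1) satisfy
`|α - p / q| > c / (q² (log q)^(1+ε))` for all integers `p` and all `2 ≤ q ≤ H ^ κ`. -/
theorem result (K : IntermediateField ℚ ℝ) (m : ℕ) (hm : 1 ≤ m)
    (e : Module.Basis (Fin (m + 1)) ℚ K) (he : e 0 = 1) :
    (∀ H : ℕ, 1 ≤ H → (Elements e H).Finite ∧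
      1 / 4 * (H : ℝ) ^ (m + 2) ≤ ({α | α ∈ Elements e H ∧ Irrational α}.ncard : ℝ)) ∧
    (⋃ H, Elements e H) = (K : Set ℝ) ∧
    (∀ κ : ℝ, κ < m + 1 → ∀ ψ : ℕ → ℝ, (∀ q, 0 ≤ ψ q) → Antitone ψ → Summable ψ →
      ∀ η : ℝ, 0 < η → ∃ c : ℝ, 0 < c ∧ ∀ H : ℕ, 1 ≤ H →
        ({α | α ∈ Elements e H ∧ Irrational α ∧
          ¬ KhintchineUpTo ((H : ℝ) ^ κ) c ψ α}.ncard : ℝ) ≤ η * (H : ℝ) ^ (m + 2)) ∧
    (∀ κ : ℝ, κ < m + 1 → ∀ ε η : ℝ, 0 < ε → 0 < η → ∃ c : ℝ, 0 < c ∧ ∀ H : ℕ, 1 ≤ H →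
        ({α | α ∈ Elements e H ∧ Irrational α ∧
          ¬ LangUpTo ((H : ℝ) ^ κ) c ε α}.ncard : ℝ) ≤ η * (H : ℝ) ^ (m + 2)) := by
  refine ⟨fun H hH => ?_, union_eq e, fun κ hκ ψ hψ0 hψ hs η hη => ?_,
    fun κ hκ ε η hε hη => ?_⟩
  · exact LN.t_LOW m hm (fun i => ((e i : K) : ℝ)) (linind e) (by simp [he]) H hH
  · obtain ⟨c, hc, h⟩ := count e hm he κ hκ ψ hψ0 hψ hs η hη
    exact ⟨c, hc, fun H hH => (h H hH).2⟩
  · obtain ⟨c, hc, h⟩ := count e hm he κ hκ (LN.lang ε) (LN.lang_nonneg ε) (LN.lang_anti ε hε)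
      (LN.lang_summable ε hε) η hη
    refine ⟨c, hc, fun H hH => ?_⟩
    obtain ⟨h1, h2⟩ := h H hH
    refine le_trans ?_ h2
    have hsub : {α | α ∈ Elements e H ∧ Irrational α ∧ ¬ LangUpTo ((H : ℝ) ^ κ) c ε α} ⊆
        {α | α ∈ Elements e H ∧ Irrational α ∧
          ¬ KhintchineUpTo ((H : ℝ) ^ κ) c (LN.lang ε) α} := by
      rintro α ⟨h3, h4, h5⟩
      refine ⟨h3, h4, fun h6 => h5 ?_⟩
      intro p q hq2 hqN
      have h7 := h6 p q (by omega) hqN
      have h8 : c * LN.lang ε q / q = c / ((q : ℝ) ^ 2 * Real.log q ^ (1 + ε)) := by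
        rw [mul_div_assoc, LN.lang_eq ε q hq2, mul_one_div]
      rw [h8] at h7
      exact h7
    exact_mod_cast Set.ncard_le_ncard hsub h1

end Pool.Agent.Results.MP_c307ca_nt.NumberFields
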